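import Pool.Agent.H32.HW.Cubic

/-!
Counting: one equation with multipliers, padding, digits in base three.
-/

namespace Pool.Agent.H41.HWS

open Finset Pool.Agent.H73.Zeta Pool.Agent.H32.HW

section field

variable {K : Type} [Field K] [Finite K]

theorem card_ge_two : (2 : ℤ) ≤ Nat.card K := by
  have := Finite.one_lt_card (α := K)
  exact_mod_cast this

/-- The solutions of an equation which is linear in the first variables. -/
theorem cnt_mult_one {ι W : Type*} [Fintype ι] [Finite W] (h : ι → W → K) :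
    (Nat.card K : ℤ) * cnt (fun z : (ι → K) × W => ∑ i, z.1 i * h i z.2 = 1) =
      (Nat.card K : ℤ) ^ Fintype.card ι * ((Nat.card W : ℤ) - cnt (fun w => ∀ i, h i w = 0)) := by
  have h1 := cnt_values (K := K) (V := ι → K) (W := W) (fun v w => ∑ i, v i * h i w)
    (fun c v w => by
      simp only [Finset.mul_sum, Pi.smul_apply, smul_eq_mul]
      exact Finset.sum_congr rfl (fun i _ => by ring))
  have h2 := cnt_mult (K := K) h
  have h3 := card_ge_two (K := K)
  push_cast at h1
  rw [card_fun] at h1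
  have h4 : ((Nat.card K : ℤ) - 1) ≠ 0 := by linarith
  apply mul_left_cancel₀ h4
  linear_combination (-(Nat.card K : ℤ)) * h1 - h2

/-- The solutions of a product of conditions. -/
theorem cnt_pi {ι : Type} [Fintype ι] {α : ι → Type} (P : ∀ i, α i → Prop) :
    cnt (fun w : ∀ i, α i => ∀ i, P i (w i)) = ∏ i, cnt (P i) := by
  unfold cnt
  rw [Nat.card_congr (Equiv.subtypePiEquivPi (p := fun {i} => P i)), Nat.card_pi]
  push_cast
  rfl

/-- The solutions `(y, z)` of the system of bilinear equations with coefficients `S i j k`. -/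
noncomputable def Mf (K : Type) [Field K] (S : ℕ → ℕ → ℕ → ℤ) (a b c : ℕ) : ℤ :=
  cnt (fun w : (Fin b → K) × (Fin c → K) =>
    ∀ i : Fin a, ∑ j : Fin b, ∑ k : Fin c, (S i j k : K) * w.1 j * w.2 k = 0)

/-- Padding. -/
theorem Mf_pad (S : ℕ → ℕ → ℕ → ℤ) {a b c a' : ℕ} (d e : ℕ) (ha : a ≤ a')
    (hS : ∀ i j k, a ≤ i ∨ b ≤ j ∨ c ≤ k → S i j k = 0) :
    Mf K S a' (b + d) (c + e) = (Nat.card K : ℤ) ^ (d + e) * Mf K S a b c := by
  have := Fintype.ofFinite K
  let ε : (((Fin b → K) × (Fin c → K)) × ((Fin d → K) × (Fin e → K))) ≃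
      ((Fin (b + d) → K) × (Fin (c + e) → K)) :=
    (Equiv.prodProdProdComm _ _ _ _).trans
      ((Fin.appendEquiv b d).prodCongr (Fin.appendEquiv c e))
  unfold Mf
  rw [← cnt_equiv ε]
  have h1 : ∀ (u : ((Fin b → K) × (Fin c → K)) × ((Fin d → K) × (Fin e → K))),
      (∀ i : Fin a', ∑ j : Fin (b + d), ∑ k : Fin (c + e),
        (S i j k : K) * (ε u).1 j * (ε u).2 k = 0) ↔
      (∀ i : Fin a, ∑ j : Fin b, ∑ k : Fin c, (S i j k : K) * u.1.1 j * u.1.2 k = 0) := by
    rintro ⟨⟨y, z⟩, ⟨y', z'⟩⟩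
    have e1 : (ε ((y, z), (y', z'))).1 = Fin.append y y' := rfl
    have e2 : (ε ((y, z), (y', z'))).2 = Fin.append z z' := rfl
    rw [e1, e2]
    have h2 : ∀ i : ℕ, ∑ j : Fin (b + d), ∑ k : Fin (c + e),
        (S i j k : K) * Fin.append y y' j * Fin.append z z' k =
        ∑ j : Fin b, ∑ k : Fin c, (S i j k : K) * y j * z k := by
      intro i
      rw [Fin.sum_univ_add]
      have h3 : ∑ j : Fin d, ∑ k : Fin (c + e), (S i (Fin.natAdd b j : Fin (b + d)) k : K) *
          Fin.append y y' (Fin.natAdd b j) * Fin.append z z' k = 0 := by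
        apply Finset.sum_eq_zero
        intro j _
        apply Finset.sum_eq_zero
        intro k _
        rw [hS _ _ _ (Or.inr (Or.inl (by simp)))]
        simp
      rw [h3, add_zero]
      apply Finset.sum_congr rfl
      intro j _
      rw [Fin.sum_univ_add]
      have h4 : ∑ k : Fin e, (S i (Fin.castAdd d j : Fin (b + d))
          (Fin.natAdd c k : Fin (c + e)) : K) *
          Fin.append y y' (Fin.castAdd d j) * Fin.append z z' (Fin.natAdd c k) = 0 := by
        apply Finset.sum_eq_zero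
        intro k _
        rw [hS _ _ _ (Or.inr (Or.inr (by simp)))]
        simp
      rw [h4, add_zero]
      apply Finset.sum_congr rfl
      intro k _
      rw [Fin.append_left, Fin.append_left]
      rfl
    constructor
    · intro h i
      rw [← h2 i]
      exact h (Fin.castLE ha i)
    · intro h i
      rw [h2 i]
      by_cases hi : (i : ℕ) < a
      · exact h ⟨i, hi⟩
      · apply Finset.sum_eq_zero
        intro j _
        apply Finset.sum_eq_zero
        intro k _
        rw [hS _ _ _ (Or.inl (not_lt.1 hi))]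
        simp
  rw [cnt_congr h1, cnt_prod']
  simp only [Finset.sum_const, Finset.card_univ, nsmul_eq_mul]
  rw [← Nat.card_eq_fintype_card, Nat.card_prod]
  push_cast
  rw [card_fun, card_fun, Fintype.card_fin, Fintype.card_fin, pow_add]

/-- One factor of the count. -/
theorem cnt_factor {a b c n : ℕ} (S : ℕ → ℕ → ℕ → ℤ) :
    cnt (fun u : (Fin b → K) × (Fin c → K) × (Fin n → K) =>
      (∀ i : Fin a, ∑ j : Fin b, ∑ k : Fin c, (S i j k : K) * u.1 j * u.2.1 k = 0) ∧
        ∀ (r : Fin n) (j : Fin b), u.1 j * u.2.2 r = 0) =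
      (Nat.card K : ℤ) ^ (c + n) + Mf K S a b c - (Nat.card K : ℤ) ^ c := by
  classical
  have := Fintype.ofFinite K
  rw [← cnt_equiv (Equiv.prodAssoc (Fin b → K) (Fin c → K) (Fin n → K)), cnt_prod]
  have h1 : ∀ w : (Fin b → K) × (Fin c → K), cnt (fun v : Fin n → K =>
      (∀ i : Fin a, ∑ j : Fin b, ∑ k : Fin c, (S i j k : K) *
        ((Equiv.prodAssoc (Fin b → K) (Fin c → K) (Fin n → K)) (w, v)).1 j *
        ((Equiv.prodAssoc (Fin b → K) (Fin c → K) (Fin n → K)) (w, v)).2.1 k = 0) ∧
        ∀ (r : Fin n) (j : Fin b),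
          ((Equiv.prodAssoc (Fin b → K) (Fin c → K) (Fin n → K)) (w, v)).1 j *
          ((Equiv.prodAssoc (Fin b → K) (Fin c → K) (Fin n → K)) (w, v)).2.2 r = 0) =
      (if ∀ i : Fin a, ∑ j : Fin b, ∑ k : Fin c, (S i j k : K) * w.1 j * w.2 k = 0
        then (1 : ℤ) else 0) + ((Nat.card K : ℤ) ^ n - 1) * if w.1 = 0 then (1 : ℤ) else 0 := by
    rintro ⟨y, z⟩
    show cnt (fun v : Fin n → K =>
      (∀ i : Fin a, ∑ j : Fin b, ∑ k : Fin c, (S i j k : K) * y j * z k = 0) ∧
        ∀ (r : Fin n) (j : Fin b), y j * v r = 0) =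
      (if ∀ i : Fin a, ∑ j : Fin b, ∑ k : Fin c, (S i j k : K) * y j * z k = 0
        then (1 : ℤ) else 0) + ((Nat.card K : ℤ) ^ n - 1) * if y = 0 then (1 : ℤ) else 0
    by_cases hy : y = 0
    · subst hy
      have h2 : cnt (fun v : Fin n → K =>
          (∀ i : Fin a, ∑ j : Fin b, ∑ k : Fin c, (S i j k : K) * (0 : Fin b → K) j * z k = 0) ∧
          ∀ (r : Fin n) (j : Fin b), (0 : Fin b → K) j * v r = 0) =
          cnt (fun _ : Fin n → K => True) := cnt_congr (fun v => by simp)
      rw [h2, cnt_true, card_fun, Fintype.card_fin]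
      simp
    · obtain ⟨j₀, hj⟩ : ∃ j, y j ≠ 0 := by
        by_contra hcon
        apply hy
        funext j
        by_contra hj
        exact hcon ⟨j, hj⟩
      rw [if_neg hy, mul_zero, add_zero]
      by_cases hA : ∀ i : Fin a, ∑ j : Fin b, ∑ k : Fin c, (S i j k : K) * y j * z k = 0
      · rw [if_pos hA, ← cnt_eq (0 : Fin n → K)]
        apply cnt_congr
        intro v
        constructor
        · rintro ⟨_, h⟩
          funext r
          exact (mul_eq_zero.1 (h r j₀)).resolve_left hj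
        · rintro rfl
          exact ⟨hA, fun r j => by simp⟩
      · rw [if_neg hA]
        unfold cnt
        have : IsEmpty {v : Fin n → K //
            (∀ i : Fin a, ∑ j : Fin b, ∑ k : Fin c, (S i j k : K) * y j * z k = 0) ∧
            ∀ (r : Fin n) (j : Fin b), y j * v r = 0} := ⟨fun v => hA v.2.1⟩
        rw [Nat.card_of_isEmpty]
        rfl
  rw [Finset.sum_congr rfl (fun w _ => h1 w), Finset.sum_add_distrib, ← Finset.mul_sum]
  have h3 : ∑ w : (Fin b → K) × (Fin c → K), (if ∀ i : Fin a, ∑ j : Fin b, ∑ k : Fin c,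
      (S i j k : K) * w.1 j * w.2 k = 0 then (1 : ℤ) else 0) = Mf K S a b c := by
    unfold Mf
    rw [cnt_sum]
  have h4 : ∑ w : (Fin b → K) × (Fin c → K), (if w.1 = 0 then (1 : ℤ) else 0) =
      (Nat.card K : ℤ) ^ c := by
    rw [← cnt_sum, cnt_prod']
    simp only [Finset.sum_const, Finset.card_univ, nsmul_eq_mul]
    rw [← Nat.card_eq_fintype_card, card_fun, Fintype.card_fin, cnt_eq (0 : Fin b → K), mul_one]
  rw [h3, h4]
  ring

end field

end Pool.Agent.H41.HWS
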