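import Pool.Agent.H41.HWS.Pub

/-!
Every trilinear form with coefficients `-1, 0, 1` is one of the forms `T_l`.
-/

namespace Pool.Agent.H41.HWS

theorem coef_eq_zero {l i j k : ℕ} (h : l ≤ i ∨ l ≤ j ∨ l ≤ k) : coef l i j k = 0 := by
  have h1 : l ≤ Nat.pair i (Nat.pair j k) := by
    have h2 := Nat.left_le_pair i (Nat.pair j k)
    have h3 := Nat.right_le_pair i (Nat.pair j k)
    have h4 := Nat.left_le_pair j k
    have h5 := Nat.right_le_pair j k
    omega
  have h2 : l < 3 ^ Nat.pair i (Nat.pair j k) :=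
    lt_of_le_of_lt h1 (Nat.lt_pow_self (by norm_num))
  unfold coef
  rw [Nat.div_eq_of_lt h2]
  norm_num

theorem exists_digits (M : ℕ) : ∀ d : ℕ → ℕ, (∀ e, d e < 3) → (∀ e, M ≤ e → d e = 0) →
    ∃ l : ℕ, ∀ e, l / 3 ^ e % 3 = d e := by
  induction M with
  | zero =>
    intro d _ hd
    exact ⟨0, fun e => by rw [Nat.zero_div, hd e (Nat.zero_le e)]⟩
  | succ M ih =>
    intro d h3 hd
    obtain ⟨l, hl⟩ := ih (fun e => d (e + 1)) (fun e => h3 _) (fun e he => hd _ (by omega))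
    refine ⟨d 0 + 3 * l, fun e => ?_⟩
    cases e with
    | zero =>
      rw [pow_zero, Nat.div_one, Nat.add_mul_mod_self_left, Nat.mod_eq_of_lt (h3 0)]
    | succ e =>
      have h1 : (d 0 + 3 * l) / 3 ^ (e + 1) = l / 3 ^ e := by
        rw [pow_succ', ← Nat.div_div_eq_div_mul, Nat.add_mul_div_left _ _ (by norm_num),
          Nat.div_eq_of_lt (h3 0), zero_add]
      rw [h1]
      exact hl e

theorem exists_coef {a b c : ℕ} (T : Fin a → Fin b → Fin c → ℤ)
    (hT : ∀ i j k, T i j k = -1 ∨ T i j k = 0 ∨ T i j k = 1) :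
    ∃ l : ℕ, (∀ (i : Fin a) (j : Fin b) (k : Fin c), coef l i j k = T i j k) ∧
      ∀ i j k : ℕ, a ≤ i ∨ b ≤ j ∨ c ≤ k → coef l i j k = 0 := by
  classical
  let T' : ℕ → ℕ → ℕ → ℤ := fun i j k => if h : i < a ∧ j < b ∧ k < c then
    T ⟨i, h.1⟩ ⟨j, h.2.1⟩ ⟨k, h.2.2⟩ else 0
  have hT' : ∀ i j k, T' i j k = -1 ∨ T' i j k = 0 ∨ T' i j k = 1 := by
    intro i j k
    by_cases h : i < a ∧ j < b ∧ k < c
    · simp only [T', dif_pos h]
      exact hT _ _ _
    · simp only [T', dif_neg h]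
      right; left; trivial
  let δ : ℤ → ℕ := fun t => if t = 1 then 1 else if t = -1 then 2 else 0
  let d : ℕ → ℕ := fun e => δ (T' e.unpair.1 e.unpair.2.unpair.1 e.unpair.2.unpair.2)
  have hd3 : ∀ e, d e < 3 := by
    intro e
    simp only [d, δ]
    split_ifs <;> norm_num
  have hd0 : ∀ e, Nat.pair a (Nat.pair b c) ≤ e → d e = 0 := by
    intro e he
    have h0 : T' e.unpair.1 e.unpair.2.unpair.1 e.unpair.2.unpair.2 = 0 := by
      simp only [T']
      rw [dif_neg]
      rintro ⟨h1, h2, h3⟩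
      have e1 : e = Nat.pair e.unpair.1 (Nat.pair e.unpair.2.unpair.1 e.unpair.2.unpair.2) := by
        rw [Nat.pair_unpair, Nat.pair_unpair]
      have h4 := Nat.pair_lt_pair_left
        (Nat.pair e.unpair.2.unpair.1 e.unpair.2.unpair.2) h1
      have h5 : Nat.pair e.unpair.2.unpair.1 e.unpair.2.unpair.2 < Nat.pair b c :=
        (Nat.pair_lt_pair_left _ h2).trans (Nat.pair_lt_pair_right _ h3)
      have h6 := Nat.pair_lt_pair_right a h5
      rw [e1] at he
      omega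
    simp only [d, h0, δ]
    norm_num
  obtain ⟨l, hl⟩ := exists_digits _ d hd3 hd0
  have key : ∀ i j k : ℕ, coef l i j k = T' i j k := by
    intro i j k
    unfold coef
    rw [Nat.add_mod, hl]
    have h1 : d (Nat.pair i (Nat.pair j k)) = δ (T' i j k) := by
      simp only [d, Nat.unpair_pair]
    rw [h1]
    rcases hT' i j k with h | h | h <;> rw [h] <;> simp [δ]
  refine ⟨l, fun i j k => ?_, fun i j k h => ?_⟩
  · rw [key]
    simp only [T']
    rw [dif_pos ⟨i.2, j.2, k.2⟩]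
  · rw [key]
    simp only [T']
    rw [dif_neg]
    rintro ⟨h1, h2, h3⟩
    omega

end Pool.Agent.H41.HWS
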