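import Pool.Agent.H41.HWS.To
import Pool.Agent.H32.HW.Alg

/-!
Separation of the factors of a product by large powers of `q`.
-/

namespace Pool.Agent.H41.HWS

open Pool.Agent.H32.HW
open Finset

variable {N : ℕ} {E : Set ℝ}

/-- A product of factors close to one. -/
theorem prod_approx {f : ℕ → Fam N} {A : ℤ} (hA : 0 ≤ A) (k : ℕ)
    (hf : ∀ l < k, Gr (-A) (f l)) :
    Gr (-(2 * A)) (∏ l ∈ range k, (1 + f l) - 1 - ∑ l ∈ range k, f l) := by
  induction k with
  | zero =>
    simp only [range_zero, prod_empty, sum_empty, sub_self]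
    exact Gr.zero _
  | succ k ih =>
    have h1 := ih (fun l hl => hf l (Nat.lt_succ_of_lt hl))
    have h2 : Gr (-A) (∑ l ∈ range k, f l) := Gr.sum (fun l hl =>
      hf l (Nat.lt_succ_of_lt (mem_range.1 hl)))
    have h3 : Gr (-A) (∏ l ∈ range k, (1 + f l) - 1) := by
      have := (h1.mono (show -(2 * A) ≤ -A by linarith)).add h2
      rwa [sub_add_cancel] at this
    have h4 := (hf k (Nat.lt_succ_self k)).mul h3
    have h5 := h1.add (h4.mono (show -A + -A ≤ -(2 * A) by linarith))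
    rw [prod_range_succ, sum_range_succ]
    convert h5 using 1
    ring

/-- The exponents. -/
def NN (m l : ℕ) : ℤ := (m : ℤ) * (m + l)

/-- The factors, minus one. -/
noncomputable def ff (s : ℕ → Fam N) (m l : ℕ) : Fam N :=
  qf ^ ((m : ℤ) - NN m l) * s l - qf ^ (-NN m l)

variable {s : ℕ → Fam N} (hs : ∀ l, Gr 0 (s l))

include hs in
theorem ff_gr (m l : ℕ) : Gr (2 * ((m : ℤ) - NN m l)) (ff s m l) := by
  have h1 := (Gr.qf_zpow (N := N) ((m : ℤ) - NN m l)).mul (hs l)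
  rw [add_zero] at h1
  have h2 := (Gr.qf_zpow (N := N) (-NN m l)).mono
    (show 2 * (-NN m l) ≤ 2 * ((m : ℤ) - NN m l) by
      have : (0 : ℤ) ≤ m := Int.natCast_nonneg m
      linarith)
  exact h1.sub h2

theorem NN_ge (m l : ℕ) : (m : ℤ) ^ 2 ≤ NN m l := by
  unfold NN
  have h1 : (0 : ℤ) ≤ m := Int.natCast_nonneg m
  have h2 : (0 : ℤ) ≤ l := Int.natCast_nonneg l
  nlinarith [mul_nonneg h1 h2]

theorem sq_ge (m : ℕ) : (m : ℤ) ≤ (m : ℤ) ^ 2 := by
  rcases Nat.eq_zero_or_pos m with h | h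
  · subst h; simp
  · have : (1 : ℤ) ≤ m := by exact_mod_cast h
    nlinarith

include hs in
theorem ff_gr' (m l : ℕ) : Gr (-(2 * ((m : ℤ) ^ 2 - m))) (ff s m l) := by
  refine (ff_gr hs m l).mono ?_
  have := NN_ge m l
  linarith

include hs in
theorem prod_ff (m : ℕ) : Gr (-(4 * ((m : ℤ) ^ 2 - m)))
    (∏ l ∈ range m, (1 + ff s m l) - 1 - ∑ l ∈ range m, ff s m l) := by
  have h := prod_approx (f := ff s m) (A := 2 * ((m : ℤ) ^ 2 - m))
    (by have := sq_ge m; linarith) m (fun l _ => ff_gr' hs m l)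
  refine h.mono ?_
  linarith

include hs in
theorem prod_ff_gr (m : ℕ) : Gr 0 (∏ l ∈ range m, (1 + ff s m l)) := by
  have h0 := sq_ge m
  have h1 := (prod_ff hs m).mono (show -(4 * ((m : ℤ) ^ 2 - m)) ≤ 0 by linarith)
  have h2 : Gr 0 (∑ l ∈ range m, ff s m l) := Gr.sum (fun l _ =>
    (ff_gr' hs m l).mono (by linarith))
  have h3 := (h1.add h2).add Gr.one
  have e : ∏ l ∈ range m, (1 + ff s m l) - 1 - ∑ l ∈ range m, ff s m l +
      ∑ l ∈ range m, ff s m l + 1 = ∏ l ∈ range m, (1 + ff s m l) := by ring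
  rwa [e] at h3

include hs in
/-- **Extraction.** -/
theorem extract (hE : ∀ x : ℝ, x + 1 ∈ E ↔ x ∈ E) {X : ℕ → Fam N} {D : ℕ → ℤ}
    (hX : ∀ m, X m = qf ^ D m * (1 - qf ^ (-(m : ℤ) ^ 2) * ∏ l ∈ range m, (1 + ff s m l)))
    (h : ∀ K : ℕ, ∃ᶠ m : ℕ in Filter.atTop,
      GoodTo E ((D m : ℝ) - 2 * (m : ℝ) ^ 2 - K * m) (X m)) :
    Good E (1 : Fam N) ∧ ∀ l, Good E (s l) := by
  have hfr : ∀ K L : ℕ, ∃ m ≥ L, GoodTo E (-(2 * (m : ℝ) ^ 2 + K * m))
      (1 - qf ^ (-(m : ℤ) ^ 2) * ∏ l ∈ range m, (1 + ff s m l)) := by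
    intro K L
    obtain ⟨m, hm, hg⟩ := (Filter.frequently_atTop.1 (h K)) L
    refine ⟨m, hm, ?_⟩
    have h1 := hg.shift hE (-D m)
    rw [hX m, ← mul_assoc, qf_zpow_mul, neg_add_cancel, zpow_zero, one_mul] at h1
    refine h1.mono (le_of_eq ?_)
    push_cast
    ring
  have hpr : ∀ m : ℕ, Gr (-(2 * (m : ℤ) ^ 2))
      (qf ^ (-(m : ℤ) ^ 2) * ∏ l ∈ range m, (1 + ff s m l)) := by
    intro m
    have h1 := (Gr.qf_zpow (N := N) (-(m : ℤ) ^ 2)).mul (prod_ff_gr hs m)
    refine h1.mono (le_of_eq ?_)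
    ring
  have hsub : ∀ m : ℕ, Gr 0 (1 - qf ^ (-(m : ℤ) ^ 2) * ∏ l ∈ range m, (1 + ff s m l)) := by
    intro m
    exact Gr.one.sub ((hpr m).mono (by have := sq_nonneg (m : ℤ); linarith))
  have hone : Good E (1 : Fam N) := by
    refine good_of_goodTo Gr.one (fun K => ?_)
    obtain ⟨m, hm, hg⟩ := hfr 0 (K + 1)
    have hm1 : (K : ℝ) + 1 ≤ m := by exact_mod_cast hm
    have hK : (0 : ℝ) ≤ K := Nat.cast_nonneg K
    refine ⟨1 - (m : ℝ) ^ 2, by nlinarith, ?_⟩
    have h2 : GoodTo E (1 - (m : ℝ) ^ 2)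
        (qf ^ (-(m : ℤ) ^ 2) * ∏ l ∈ range m, (1 + ff s m l) : Fam N) := by
      refine (GoodTo.of_gr (hpr m)).mono (le_of_eq ?_)
      push_cast
      ring
    have h3 := (hg.mono (show -(2 * (m : ℝ) ^ 2 + (0 : ℕ) * m) ≤ 1 - (m : ℝ) ^ 2 by
      push_cast; nlinarith)).add h2 (hsub m) (hpr m)
    rwa [sub_add_cancel] at h3
  refine ⟨hone, ?_⟩
  have hprod : ∀ K L : ℕ, ∃ m ≥ L, GoodTo E (-((m : ℝ) ^ 2 + K * m))
      (∏ l ∈ range m, (1 + ff s m l)) := by
    intro K L
    obtain ⟨m, hm, hg⟩ := hfr K L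
    refine ⟨m, hm, ?_⟩
    have h1 := ((GoodTo.of_good hone (-(2 * (m : ℝ) ^ 2 + K * m))).sub hg Gr.one
      (hsub m)).shift hE ((m : ℤ) ^ 2)
    rw [sub_sub_cancel, ← mul_assoc, qf_zpow_mul] at h1
    have e : (m : ℤ) ^ 2 + -(m : ℤ) ^ 2 = 0 := by ring
    rw [e, zpow_zero, one_mul] at h1
    refine h1.mono (le_of_eq ?_)
    push_cast
    ring
  intro l
  induction l using Nat.strong_induction_on with
  | _ l ih =>
    refine good_of_goodTo (hs l) (fun K => ?_)
    obtain ⟨m, hm, hg⟩ := hprod l (2 * l + K + 6)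
    have hlm : l < m := by omega
    have hm1 : (2 * l + K + 6 : ℝ) ≤ m := by
      have : 2 * l + K + 6 ≤ m := by omega
      exact_mod_cast this
    have hK : (0 : ℝ) ≤ K := Nat.cast_nonneg K
    have hl : (0 : ℝ) ≤ l := Nat.cast_nonneg l
    have hm0 : (0 : ℝ) ≤ m := Nat.cast_nonneg m
    refine ⟨-(K : ℝ), le_refl _, ?_⟩
    -- the terms before the `l`-th
    have hlow : ∀ k ≤ l, Good E (∑ j ∈ range k, ff s m j) ∧ Gr 0 (∑ j ∈ range k, ff s m j) := by
      intro k
      induction k with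
      | zero =>
        intro _
        simp only [range_zero, sum_empty]
        exact ⟨Good.zero, Gr.zero _⟩
      | succ k ihk =>
        intro hk
        obtain ⟨h1, h2⟩ := ihk (by omega)
        have h3 : Gr 0 (ff s m k) := (ff_gr' hs m k).mono (by have := sq_ge m; linarith)
        have h4 : Good E (ff s m k) := by
          have h5 := (ih k (by omega)).shift hE ((m : ℤ) - NN m k)
          have h6 := (hone.shift hE (-NN m k)).neg
          rw [mul_one] at h6
          have h7 := h5.add h6 ((Gr.qf_zpow _).mul (hs k)) (Gr.qf_zpow _).neg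
          rwa [← sub_eq_add_neg] at h7
        rw [sum_range_succ]
        exact ⟨h1.add h4 h2 h3, h2.add h3⟩
    obtain ⟨hl1, hl2⟩ := hlow l (le_refl l)
    -- the terms after the `l`-th
    have htail : Gr (2 * ((m : ℤ) - NN m (l + 1))) (∑ j ∈ Ico (l + 1) m, ff s m j) := by
      refine Gr.sum (fun j hj => (ff_gr hs m j).mono ?_)
      have hj1 : l + 1 ≤ j := (mem_Ico.1 hj).1
      have : NN m (l + 1) ≤ NN m j := by
        unfold NN
        have h1 : ((l + 1 : ℕ) : ℤ) ≤ j := by exact_mod_cast hj1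
        have h2 : (0 : ℤ) ≤ m := Int.natCast_nonneg m
        exact mul_le_mul_of_nonneg_left (by linarith) h2
      linarith
    have hR := prod_ff hs m
    set P : Fam N := ∏ j ∈ range m, (1 + ff s m j) with hP
    set T : Fam N := ∑ j ∈ Ico (l + 1) m, ff s m j with hT
    set S : Fam N := ∑ j ∈ range l, ff s m j with hS
    set R : Fam N := P - 1 - ∑ j ∈ range m, ff s m j with hRdef
    have hsum : ∑ j ∈ range m, ff s m j = S + ff s m l + T := by
      rw [hS, hT, ← sum_range_succ, ← sum_range_add_sum_Ico _ (by omega : l + 1 ≤ m)]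
    have hff : ff s m l = (P - 1 - S) - (T + R) := by
      rw [hRdef, hsum]
      ring
    have hsl : s l = qf ^ (NN m l - m) * (P - 1 - S) + (-(qf ^ (NN m l - m) * T) +
        (-(qf ^ (NN m l - m) * R) + qf ^ (-(m : ℤ)))) := by
      have h1 : qf ^ (NN m l - m) * ff s m l = s l - qf ^ (-(m : ℤ)) := by
        unfold ff
        rw [mul_sub, ← mul_assoc, qf_zpow_mul, qf_zpow_mul]
        have e1 : NN m l - m + (m - NN m l) = 0 := by ring
        have e2 : NN m l - m + -NN m l = -(m : ℤ) := by ring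
        rw [e1, e2, zpow_zero, one_mul]
      rw [hff] at h1
      linear_combination -h1
    have hNN : ((NN m l : ℤ) : ℝ) = (m : ℝ) ^ 2 + m * l := by
      unfold NN
      push_cast
      ring
    have g1 : GoodTo E (-(K : ℝ)) (qf ^ (NN m l - m) * (P - 1 - S)) := by
      have h1 := ((hg.sub (GoodTo.of_good hone _) (prod_ff_gr hs m) Gr.one).sub
        (GoodTo.of_good hl1 _) ((prod_ff_gr hs m).sub Gr.one) hl2).shift hE (NN m l - m)
      refine h1.mono ?_
      push_cast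
      rw [hNN]
      nlinarith
    have g2 : GoodTo E (-(K : ℝ)) (-(qf ^ (NN m l - m) * T)) := by
      refine ((GoodTo.of_gr ((Gr.qf_zpow (NN m l - m)).mul htail)).mono ?_).neg
      have e : 2 * (NN m l - m) + 2 * (m - NN m (l + 1)) = -(2 * (m : ℤ)) := by
        unfold NN
        push_cast
        ring
      rw [e]
      push_cast
      linarith
    have b2 : Gr (-(2 * (m : ℤ))) (-(qf ^ (NN m l - m) * T)) := by
      refine ((Gr.qf_zpow (NN m l - m)).mul htail).neg.mono (le_of_eq ?_)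
      unfold NN
      push_cast
      ring
    have bR : Gr (-(2 * (m : ℤ) ^ 2) + 2 * m * l + 2 * m) (qf ^ (NN m l - m) * R) := by
      refine ((Gr.qf_zpow (NN m l - m)).mul hR).mono (le_of_eq ?_)
      unfold NN
      ring
    have g3 : GoodTo E (-(K : ℝ)) (-(qf ^ (NN m l - m) * R)) := by
      refine ((GoodTo.of_gr bR).mono ?_).neg
      push_cast
      nlinarith
    have g4 : GoodTo E (-(K : ℝ)) (qf ^ (-(m : ℤ)) : Fam N) := by
      refine (GoodTo.of_gr (Gr.qf_zpow (-(m : ℤ)))).mono ?_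
      push_cast
      linarith
    rw [hsl]
    exact g1.add (g2.add (g3.add g4 bR.neg (Gr.qf_zpow _)) b2
      ((bR.neg.mono (le_max_left _ _)).add ((Gr.qf_zpow _).mono (le_max_right _ _))))
      ((Gr.qf_zpow _).mul (((prod_ff_gr hs m).sub Gr.one).sub hl2))
      ((b2.mono (le_max_left _ _)).add (((bR.neg.mono (le_max_left _ _)).add
        ((Gr.qf_zpow _).mono (le_max_right _ _))).mono (le_max_right _ _)))

end Pool.Agent.H41.HWS
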