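import Pool.Agent.H41.HWS.Main

/-!
The half plane to which the zeta function of `X_m` is known to extend.
-/

namespace Pool.Agent.H41.HWS

open Finset Pool.Agent.H32.HW
open Complex Filter Topology

theorem meromorphic_zeta (s : ℂ) : MeromorphicAt riemannZeta s := by
  by_cases hs : s = 1
  · subst hs
    let f : ℂ → ℂ := Function.update (fun s => (s - 1) * riemannZeta s) 1 1
    have hf : AnalyticAt ℂ f 1 := by
      apply Complex.analyticAt_of_differentiable_on_punctured_nhds_of_continuousAt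
      · filter_upwards [self_mem_nhdsWithin] with z hz
        have hz' : z ≠ 1 := hz
        have h1 : DifferentiableAt ℂ (fun s => (s - 1) * riemannZeta s) z :=
          (differentiableAt_id.sub_const 1).mul (differentiableAt_riemannZeta hz')
        refine h1.congr_of_eventuallyEq ?_
        filter_upwards [isOpen_compl_singleton.mem_nhds hz'] with w hw
        exact Function.update_of_ne hw _ _
      · rw [continuousAt_update_same]
        exact riemannZeta_residue_one
    have h2 : MeromorphicAt (fun s => f s * (s - 1)⁻¹) 1 :=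
      hf.meromorphicAt.mul ((MeromorphicAt.id 1).sub (MeromorphicAt.const 1 1)).inv
    refine h2.congr ?_
    filter_upwards [self_mem_nhdsWithin] with z hz
    have hz' : z ≠ 1 := hz
    have h3 : f z = (z - 1) * riemannZeta z := Function.update_of_ne hz' _ _
    rw [h3]
    have : z - 1 ≠ 0 := sub_ne_zero.2 hz'
    field_simp
  · have h1 : DifferentiableOn ℂ riemannZeta {1}ᶜ := fun z hz =>
      (differentiableAt_riemannZeta hz).differentiableWithinAt
    exact (h1.analyticAt (isOpen_compl_singleton.mem_nhds hs)).meromorphicAt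

theorem LF_one {s : ℂ} (hs : 1 < s.re) : LF (1 : Fam 1) s = riemannZeta s := by
  have h1 := LF_euler (N := 1) (b := 1) (fun _ _ => (1 : ℂ)) 0 (fun p _ _ _ => by simp)
    (s := s) (by simpa using hs)
  have h2 : (fun x : Idx 1 => ∑ j : Fin 1, ((fun _ _ => (1 : ℂ)) : ℕ → Fin 1 → ℂ) x.p j ^ x.k) =
      (1 : Fam 1) := by
    funext x
    simp
  rw [h2] at h1
  rw [h1, ← riemannZeta_eulerProduct_tprod hs]
  let e : {p : ℕ // p.Prime ∧ ¬ p ∣ 1} ≃ Nat.Primes :=
    Equiv.subtypeEquivRight (fun p => ⟨fun h => h.1, fun h => ⟨h, fun hd =>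
      h.one_lt.ne' (Nat.dvd_one.1 hd)⟩⟩)
  rw [← e.tprod_eq]
  refine tprod_congr fun p => ?_
  rw [Fin.prod_univ_one, one_mul]
  rfl

theorem good_one : Good Set.univ (1 : Fam 1) :=
  ⟨riemannZeta, meromorphic_zeta, fun _ _ => Set.mem_univ _, 1, fun _ hs => (LF_one hs).symm⟩

theorem known (m : ℕ) :
    GoodTo Set.univ (dimX m - 2 * (m : ℝ) ^ 2 + m + 1) (cubics m) := by
  have hE : ∀ x : ℝ, x + 1 ∈ (Set.univ : Set ℝ) ↔ x ∈ (Set.univ : Set ℝ) := fun x => by simp
  set D : ℤ := (Nat.card (Var m) : ℤ) - 1 with hD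
  set P : Fam 1 := ∏ l ∈ range m, (1 + ff sl m l) with hP
  have hP1 : Gr (-(2 * ((m : ℤ) ^ 2 - m))) (P - 1) := by
    have h0 := sq_ge m
    have h1 := (prod_ff sl_gr m).mono
      (show -(4 * ((m : ℤ) ^ 2 - m)) ≤ -(2 * ((m : ℤ) ^ 2 - m)) by linarith)
    have h2 : Gr (-(2 * ((m : ℤ) ^ 2 - m))) (∑ l ∈ range m, ff sl m l) := Gr.sum (fun l _ =>
      ff_gr' sl_gr m l)
    have h3 := h1.add h2
    rwa [sub_add_cancel] at h3
  have h4 : Gr (2 * D - 4 * (m : ℤ) ^ 2 + 2 * m) (qf ^ (D - (m : ℤ) ^ 2) * (P - 1)) := by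
    refine ((Gr.qf_zpow (D - (m : ℤ) ^ 2)).mul hP1).mono (le_of_eq ?_)
    ring
  have e : cubics m = qf ^ D + (-(qf ^ (D - (m : ℤ) ^ 2)) + -(qf ^ (D - (m : ℤ) ^ 2) * (P - 1))) :=
    by
    rw [cubics_eq, mul_sub, mul_one, ← mul_assoc, qf_zpow_mul]
    rw [show D + -(m : ℤ) ^ 2 = D - (m : ℤ) ^ 2 by ring]
    ring
  have g1 : Good Set.univ (qf ^ D : Fam 1) := by
    have := good_one.shift hE D
    rwa [mul_one] at this
  have g2 : Good Set.univ (qf ^ (D - (m : ℤ) ^ 2) : Fam 1) := by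
    have := good_one.shift hE (D - (m : ℤ) ^ 2)
    rwa [mul_one] at this
  have g3 := (GoodTo.of_gr (E := Set.univ) h4).neg
  have b1 : Gr (2 * D) (qf ^ D : Fam 1) := Gr.qf_zpow D
  have b2 : Gr (2 * (D - (m : ℤ) ^ 2)) (-(qf ^ (D - (m : ℤ) ^ 2)) : Fam 1) :=
    (Gr.qf_zpow (D - (m : ℤ) ^ 2)).neg
  rw [e]
  refine ((GoodTo.of_good g1 _).add ((GoodTo.of_good g2.neg _).add g3 b2 h4.neg) b1
    ((b2.mono (le_max_left _ _)).add (h4.neg.mono (le_max_right _ _)))).mono (le_of_eq ?_)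
  rw [hD]
  have := dimX_eq m
  push_cast
  linear_combination this

end Pool.Agent.H41.HWS
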