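import Pool.Agent.H41.HWS.XCount
import Pool.Agent.H41.HWS.Extract
import Pool.Agent.H32.HW.Final2

/-!
The zeta functions of the `X_m` control all cubic hypersurfaces.
-/

namespace Pool.Agent.H41.HWS

open Finset Pool.Agent.H73.Zeta Pool.Agent.H32.HW

variable {E : Set ℝ}

theorem card_K (x : Idx 1) : Nat.card x.K = x.q := card_FK x

instance (x : Idx 1) : Finite x.K := inferInstanceAs (Finite (FF x.pr x.k))

/-- The normalised numbers of solutions of the systems given by the forms `T_l`. -/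
noncomputable def sl (l : ℕ) : Fam 1 := fun x =>
  (x.q : ℂ) ^ (-(2 * (l : ℤ))) * (Mf x.K (coef l) l l l : ℂ)

theorem q_ne (x : Idx 1) : (x.q : ℂ) ≠ 0 := by exact_mod_cast x.q_pos.ne'

theorem Mf_le (K : Type) [Field K] [Finite K] (S : ℕ → ℕ → ℕ → ℤ) (a b c : ℕ) :
    Mf K S a b c ≤ (Nat.card K : ℤ) ^ (b + c) := by
  refine (cnt_le _).trans (le_of_eq ?_)
  rw [Nat.card_prod]
  push_cast
  rw [card_fun, card_fun, Fintype.card_fin, Fintype.card_fin, pow_add]

theorem sl_gr (l : ℕ) : Gr 0 (sl l) := by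
  refine ⟨1, zero_le_one, fun x => ?_⟩
  rw [zpow_zero, mul_one]
  have h1 := Mf_le x.K (coef l) l l l
  have h0 : 0 ≤ Mf x.K (coef l) l l l := cnt_nonneg _
  rw [card_K] at h1
  have hq : (0 : ℝ) < (x.q : ℝ) := by exact_mod_cast x.q_pos
  unfold sl
  rw [norm_mul, norm_zpow, Complex.norm_natCast, Complex.norm_intCast,
    abs_of_nonneg (by exact_mod_cast h0)]
  have h2 : (Mf x.K (coef l) l l l : ℝ) ≤ (x.q : ℝ) ^ (l + l) := by exact_mod_cast h1
  calc (x.q : ℝ) ^ (-(2 * (l : ℤ))) * (Mf x.K (coef l) l l l : ℝ)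
      ≤ (x.q : ℝ) ^ (-(2 * (l : ℤ))) * (x.q : ℝ) ^ (l + l) := by gcongr
    _ = 1 := by
        rw [← zpow_natCast, ← zpow_add₀ hq.ne']
        have : -(2 * (l : ℤ)) + ((l + l : ℕ) : ℤ) = 0 := by push_cast; ring
        rw [this, zpow_zero]

theorem Mf_box (x : Idx 1) {l a b c : ℕ}
    (h : ∀ i j k, a ≤ i ∨ b ≤ j ∨ c ≤ k → coef l i j k = 0) :
    (Mf x.K (coef l) a b c : ℂ) = (x.q : ℂ) ^ (b + c) * sl l x := by
  have hq := q_ne x
  obtain ⟨d, d', hb⟩ : ∃ d d' : ℕ, b + d = l + d' := ⟨l, b, by ring⟩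
  obtain ⟨e, e', hc⟩ : ∃ e e' : ℕ, c + e = l + e' := ⟨l, c, by ring⟩
  have h1 := Mf_pad (K := x.K) (coef l) (a := a) (b := b) (c := c) (a' := max a l) d e
    (le_max_left _ _) h
  have h2 := Mf_pad (K := x.K) (coef l) (a := l) (b := l) (c := l) (a' := max a l) d' e'
    (le_max_right _ _) (fun i j k hh => coef_eq_zero hh)
  rw [hb, hc, h2, card_K] at h1
  have h3 := congrArg (Int.cast : ℤ → ℂ) h1
  push_cast at h3
  have h4 : (x.q : ℂ) ^ (d + e) ≠ 0 := pow_ne_zero _ hq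
  apply mul_left_cancel₀ h4
  rw [← h3]
  unfold sl
  have h5 : (x.q : ℂ) ^ (d + e) * (x.q : ℂ) ^ (b + c) = (x.q : ℂ) ^ (d' + e') *
      (x.q : ℂ) ^ (2 * l) := by
    rw [← pow_add, ← pow_add]
    congr 1
    omega
  have h6 : (x.q : ℂ) ^ (2 * l) * (x.q : ℂ) ^ (-(2 * (l : ℤ))) = 1 := by
    rw [← zpow_natCast, ← zpow_add₀ hq]
    have : ((2 * l : ℕ) : ℤ) + -(2 * (l : ℤ)) = 0 := by push_cast; ring
    rw [this, zpow_zero]
  linear_combination (-(x.q : ℂ) ^ (-(2 * (l : ℤ))) * (Mf x.K (coef l) l l l : ℂ)) * h5 -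
    (x.q : ℂ) ^ (d' + e') * (Mf x.K (coef l) l l l : ℂ) * h6

theorem cubics_eq (m : ℕ) : cubics m = qf ^ ((Nat.card (Var m) : ℤ) - 1) *
    (1 - qf ^ (-(m : ℤ) ^ 2) * ∏ l ∈ range m, (1 + ff sl m l)) := by
  funext x
  have hq := q_ne x
  have h1 : cubics m x = ((cnt (fun w : Var m → x.K => MvPolynomial.aeval w (eqn m) = 0) : ℤ) :
      ℂ) := by
    unfold cubics affine cnt
    simp only [Finset.mem_singleton, forall_eq]
    push_cast
    rfl
  have h2 := congrArg (Int.cast : ℤ → ℂ) (card_X (K := x.K) m)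
  have h3 := congrArg (Int.cast : ℤ → ℂ) (card_Var (K := x.K) m)
  rw [card_K] at h2 h3
  push_cast at h2 h3
  have h4 : ∀ l : Fin m, ((x.q : ℂ) ^ (m + m * (m + (l : ℕ))) + (Mf x.K (coef l) m m m : ℂ) -
      (x.q : ℂ) ^ m) = (x.q : ℂ) ^ (2 * m + m * (m + (l : ℕ))) * ((x.q : ℂ) ^ (-(m : ℤ)) *
        (1 + ff sl m l x)) := by
    intro l
    rw [Mf_box x (l := (l : ℕ)) (a := m) (b := m) (c := m) (fun i j k hh =>
      coef_eq_zero (by have := l.2; omega))]
    have e0 : ff sl m l x = (x.q : ℂ) ^ ((m : ℤ) - NN m l) * sl l x -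
        (x.q : ℂ) ^ (-NN m l) := rfl
    have e1 : (x.q : ℂ) ^ (2 * m + m * (m + (l : ℕ))) * (x.q : ℂ) ^ (-(m : ℤ)) =
        (x.q : ℂ) ^ (m + m * (m + (l : ℕ))) := by
      rw [← zpow_natCast, ← zpow_natCast, ← zpow_add₀ hq]
      congr 1
      push_cast
      ring
    have e2 : (x.q : ℂ) ^ (m + m * (m + (l : ℕ))) * (x.q : ℂ) ^ ((m : ℤ) - NN m l) =
        (x.q : ℂ) ^ (m + m) := by
      rw [← zpow_natCast, ← zpow_natCast, ← zpow_add₀ hq]
      congr 1
      unfold NN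
      push_cast
      ring
    have e3 : (x.q : ℂ) ^ (m + m * (m + (l : ℕ))) * (x.q : ℂ) ^ (-NN m l) =
        (x.q : ℂ) ^ m := by
      rw [← zpow_natCast, ← zpow_natCast, ← zpow_add₀ hq]
      congr 1
      unfold NN
      push_cast
      ring
    rw [e0, ← mul_assoc, e1]
    linear_combination (-(sl l x)) * e2 + e3
  rw [Finset.prod_congr rfl (fun l _ => h4 l), Finset.prod_mul_distrib, Finset.prod_mul_distrib,
    ← mul_assoc, ← h3, Finset.prod_const, Finset.card_univ, Fintype.card_fin] at h2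
  have h5 : ∏ l : Fin m, (1 + ff sl m l x) = (∏ l ∈ range m, (1 + ff sl m l)) x := by
    rw [Finset.prod_apply, Finset.prod_range]
    rfl
  have h6 : ((x.q : ℂ) ^ (-(m : ℤ))) ^ m = (x.q : ℂ) ^ (-(m : ℤ) ^ 2) := by
    rw [← zpow_natCast, ← zpow_mul]
    congr 1
    ring
  rw [h5, h6] at h2
  have h7 : (x.q : ℂ) ^ Nat.card (Var m) = (x.q : ℂ) * (x.q : ℂ) ^ ((Nat.card (Var m) : ℤ) - 1) := by
    rw [zpow_sub₀ hq, zpow_one, zpow_natCast]
    field_simp
  rw [h7] at h2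
  show cubics m x = (x.q : ℂ) ^ ((Nat.card (Var m) : ℤ) - 1) *
    (1 - (x.q : ℂ) ^ (-(m : ℤ) ^ 2) * (∏ l ∈ range m, (1 + ff sl m l)) x)
  rw [h1]
  apply mul_left_cancel₀ hq
  linear_combination h2

theorem cubics_of_sl (hE : ∀ x : ℝ, x + 1 ∈ E ↔ x ∈ E) (h1 : Good E (1 : Fam 1))
    (hs : ∀ l, Good E (sl l)) : Cubics E := by
  intro a b c T hT
  obtain ⟨l, hl, hl0⟩ := exists_coef T hT
  have key : (fun x : Idx 1 => (cubic T x : ℂ)) =
      qf ^ ((a : ℤ) + b + c - 1) * (1 - sl l) := by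
    funext x
    have hq := q_ne x
    have e1 : (cubic T x : ℂ) = ((cnt (fun z : (Fin a → x.K) × ((Fin b → x.K) × (Fin c → x.K)) =>
        ∑ i, z.1 i * (∑ j : Fin b, ∑ k : Fin c, (coef l i j k : x.K) * z.2.1 j * z.2.2 k) = 1) : ℤ) : ℂ) := by
      unfold cubic cnt
      push_cast
      congr 1
      refine Nat.card_congr (Equiv.subtypeEquivRight fun z => ?_)
      have : ∑ i, ∑ j, ∑ k, (T i j k : x.K) * z.1 i * z.2.1 j * z.2.2 k =
          ∑ i, z.1 i * (∑ j : Fin b, ∑ k : Fin c, (coef l i j k : x.K) * z.2.1 j * z.2.2 k) := by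
        refine Finset.sum_congr rfl fun i _ => ?_
        rw [Finset.mul_sum]
        refine Finset.sum_congr rfl fun j _ => ?_
        rw [Finset.mul_sum]
        refine Finset.sum_congr rfl fun k _ => ?_
        rw [hl]
        ring
      rw [this]
    have e2 := congrArg (Int.cast : ℤ → ℂ) (cnt_mult_one (K := x.K)
      (W := (Fin b → x.K) × (Fin c → x.K))
      (fun (i : Fin a) w => ∑ j : Fin b, ∑ k : Fin c, (coef l i j k : x.K) * w.1 j * w.2 k))
    have e3 : ((cnt (fun w : (Fin b → x.K) × (Fin c → x.K) =>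
        ∀ i : Fin a, ∑ j : Fin b, ∑ k : Fin c, (coef l i j k : x.K) * w.1 j * w.2 k = 0) : ℤ) : ℂ) =
        (x.q : ℂ) ^ (b + c) * sl l x := Mf_box x hl0
    have e4 : (Nat.card ((Fin b → x.K) × (Fin c → x.K)) : ℤ) = (x.q : ℤ) ^ (b + c) := by
      rw [Nat.card_prod]
      push_cast
      rw [card_fun, card_fun, Fintype.card_fin, Fintype.card_fin, card_K, pow_add]
    rw [e4, card_K, Fintype.card_fin] at e2
    push_cast at e2
    rw [e3] at e2
    show (cubic T x : ℂ) = (x.q : ℂ) ^ ((a : ℤ) + b + c - 1) * (1 - sl l x)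
    rw [e1]
    apply mul_left_cancel₀ hq
    have e5 : (x.q : ℂ) * (x.q : ℂ) ^ ((a : ℤ) + b + c - 1) = (x.q : ℂ) ^ a *
        (x.q : ℂ) ^ (b + c) := by
      rw [← pow_add, ← zpow_one_add₀ hq, ← zpow_natCast]
      congr 1
      push_cast
      ring
    linear_combination e2 - (1 - sl l x) * e5
  rw [key]
  have h2 := h1.add (hs l).neg Gr.one (sl_gr l).neg
  rw [← sub_eq_add_neg] at h2
  exact h2.shift hE _

/-- **One sequence suffices.** -/
theorem cubics_of_strips (hE : ∀ x : ℝ, x + 1 ∈ E ↔ x ∈ E) (h : Strips E) : Cubics E := by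
  obtain ⟨h1, h2⟩ := extract (s := sl) sl_gr hE (X := cubics)
    (D := fun m => (Nat.card (Var m) : ℤ) - 1) cubics_eq (fun K => by
      refine (h K).mono fun m hm => ?_
      refine hm.mono (le_of_eq ?_)
      have := dimX_eq m
      push_cast
      linear_combination -this)
  exact cubics_of_sl hE h1 h2

theorem cubics_mem (m : ℕ) : cubics m ∈ Subring.closure (Gens2 1) := by
  apply Subring.subset_closure
  have := Fintype.ofFinite (Var m)
  exact ⟨Var m, this, {eqn m}, Or.inl rfl⟩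

theorem strips_of_closure (h : ∀ t ∈ Subring.closure (Gens2 1), Good E t) : Strips E := by
  intro K
  refine Filter.Eventually.frequently (Filter.Eventually.of_forall fun m => ?_)
  exact GoodTo.of_good (h _ (cubics_mem m)) _

end Pool.Agent.H41.HWS
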