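import Pool.Agent.H32.HW.Pub2

/-!
Definitions for the theorem on one sequence of smooth affine cubic hypersurfaces `X_m` over `ℤ`:
the variables, the equation of `X_m`, and meromorphic continuation to a half plane.
-/

namespace Pool.Agent.H41.HWS

open Pool.Agent.H32.HW

/-- The variables of the equation of `X_m`. -/
inductive Var (m : ℕ) : Type
  /-- the variables `x (l, i)` -/
  | x (l i : Fin m) : Var m
  /-- the variables `y (l, j)` -/
  | y (l j : Fin m) : Var m
  /-- the variables `z (l, k)` -/
  | z (l k : Fin m) : Var m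
  /-- the variables `u (l, n, j)`, where `n < m (m + l)` -/
  | u (l : Fin m) (n : Fin (m * (m + l))) (j : Fin m) : Var m
  /-- the variables `v (l, n)`, where `n < m (m + l)` -/
  | v (l : Fin m) (n : Fin (m * (m + l))) : Var m

/-- The coefficient of `x i * y j * z k` in the trilinear form `T_l`: it is `0`, `1` or `-1`, as
the digit of `l` in base three at the place `Nat.pair i (Nat.pair j k)` is `0`, `1` or `2`. -/
def coef (l i j k : ℕ) : ℤ := (((l / 3 ^ Nat.pair i (Nat.pair j k) + 1) % 3 : ℕ) : ℤ) - 1

open MvPolynomial in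
/-- The polynomial `F_m - 1`, where `F_m` is the sum over `l < m` of the trilinear forms
`T_l (x l, y l, z l)` (the sum of the `coef l i j k * x (l, i) * y (l, j) * z (l, k)`) and of the
products `u (l, n, j) * y (l, j) * v (l, n)` for `n < m (m + l)`.  The equation of `X_m` is
`F_m = 1`. -/
noncomputable def eqn (m : ℕ) : MvPolynomial (Var m) ℤ :=
  (∑ l : Fin m, (∑ i : Fin m, ∑ j : Fin m, ∑ k : Fin m,
      C (coef l i j k) * X (Var.x l i) * X (Var.y l j) * X (Var.z l k) +
    ∑ n : Fin (m * (m + l)), ∑ j : Fin m,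
      X (Var.u l n j) * X (Var.y l j) * X (Var.v l n))) - 1

/-- The numbers of points of `X_m`. -/
noncomputable def cubics (m : ℕ) (x : Idx 1) : ℂ := affine {eqn m} 1 x

/-- The dimension of `X_m` over `ℤ`: the number of the variables, minus one. -/
noncomputable def dimX (m : ℕ) : ℝ := (m : ℝ) ^ 2 * (3 * (m : ℝ) ^ 2 + 2 * m + 5) / 2 - 1

variable {N : ℕ}

/-- The L-function of `t` extends to a meromorphic function on the half plane `Re s > c`, all of
whose zeros and poles there have their real parts in `E`. -/
def GoodTo (E : Set ℝ) (c : ℝ) (t : Idx N → ℂ) : Prop :=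
  ∃ g : ℂ → ℂ, MeromorphicOn g {s : ℂ | c < s.re} ∧
    (∀ s : ℂ, c < s.re → meromorphicOrderAt g s ≠ 0 → s.re ∈ E) ∧
    ∃ C : ℝ, ∀ s : ℂ, C < s.re → g s = LF t s

/-- For every `K` there are infinitely many `m` such that the zeta function of `X_m` extends to a
meromorphic function on the half plane `Re s > dim X_m - 2 m ^ 2 - K m`, all of whose zeros and
poles there have their real parts in `E`. -/
def Strips (E : Set ℝ) : Prop :=
  ∀ K : ℕ, ∃ᶠ m : ℕ in Filter.atTop,
    GoodTo E (dimX m - 2 * (m : ℝ) ^ 2 - K * m) (cubics m)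

end Pool.Agent.H41.HWS
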