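import Pool.Agent.H41.HWS.Pub
import Pool.Agent.H32.HW.Anal

/-!
Continuation to half planes: sums, shifts, approximation.
-/

namespace Pool.Agent.H41.HWS

open Pool.Agent.H32.HW
open Complex Filter Topology Set

variable {N : ℕ} {E : Set ℝ}

theorem isOpen_half (c : ℝ) : IsOpen {s : ℂ | c < s.re} :=
  isOpen_lt continuous_const Complex.continuous_re

theorem GoodTo.of_good {t : Idx N → ℂ} (h : Good E t) (c : ℝ) : GoodTo E c t := by
  obtain ⟨g, g1, g2, C, g3⟩ := h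
  exact ⟨g, fun s _ => g1 s, fun s _ h0 => g2 s h0, C, g3⟩

theorem GoodTo.mono {t : Idx N → ℂ} {c d : ℝ} (h : GoodTo E c t) (hcd : c ≤ d) : GoodTo E d t := by
  obtain ⟨g, g1, g2, C, g3⟩ := h
  exact ⟨g, fun s hs => g1 s (lt_of_le_of_lt hcd hs), fun s hs h0 =>
    g2 s (lt_of_le_of_lt hcd hs) h0, C, g3⟩

theorem GoodTo.of_gr {t : Idx N → ℂ} {w : ℤ} (ht : Gr w t) : GoodTo E (1 + (w : ℝ) / 2) t := by
  refine ⟨LF t, fun s hs => (ht.analytic hs).meromorphicAt, fun s hs h0 => ?_, 0, fun _ _ => rfl⟩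
  exfalso
  exact h0 ((ht.analytic hs).meromorphicNFAt.meromorphicOrderAt_eq_zero_iff.2 (LF_ne_zero _ _))

theorem GoodTo.add {t u : Idx N → ℂ} {c : ℝ} (ht : GoodTo E c t) (hu : GoodTo E c u) {w v : ℤ}
    (bt : Gr w t) (bu : Gr v u) : GoodTo E c (t + u) := by
  obtain ⟨g, g1, g2, C, g3⟩ := ht
  obtain ⟨g', g1', g2', C', g3'⟩ := hu
  refine ⟨g * g', fun s hs => (g1 s hs).mul (g1' s hs), fun s hs h0 => ?_,
    max (max C C') (max (1 + (w : ℝ) / 2) (1 + (v : ℝ) / 2)), fun s hs => ?_⟩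
  · rw [meromorphicOrderAt_mul (g1 s hs) (g1' s hs)] at h0
    by_cases h1 : meromorphicOrderAt g s = 0
    · rw [h1, zero_add] at h0
      exact g2' s hs h0
    · exact g2 s hs h1
  · simp only [max_lt_iff] at hs
    rw [LF_add (bt.summable hs.2.1) (bu.summable hs.2.2), Pi.mul_apply, g3 s hs.1.1, g3' s hs.1.2]

theorem GoodTo.neg {t : Idx N → ℂ} {c : ℝ} (ht : GoodTo E c t) : GoodTo E c (-t) := by
  obtain ⟨g, g1, g2, C, g3⟩ := ht
  refine ⟨g⁻¹, fun s hs => (g1 s hs).inv, fun s hs h0 => g2 s hs ?_, C, fun s hs => ?_⟩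
  · intro h1
    rw [meromorphicOrderAt_inv, h1, neg_zero] at h0
    exact h0 rfl
  · rw [LF_neg, Pi.inv_apply, g3 s hs]

theorem GoodTo.sub {t u : Idx N → ℂ} {c : ℝ} (ht : GoodTo E c t) (hu : GoodTo E c u) {w v : ℤ}
    (bt : Gr w t) (bu : Gr v u) : GoodTo E c (t - u) := by
  rw [sub_eq_add_neg]
  exact ht.add hu.neg bt bu.neg

theorem GoodTo.shift (hE : ∀ x : ℝ, x + 1 ∈ E ↔ x ∈ E) {t : Idx N → ℂ} {c : ℝ}
    (ht : GoodTo E c t) (j : ℤ) : GoodTo E (c + j) (qf ^ j * t) := by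
  obtain ⟨g, g1, g2, C, g3⟩ := ht
  have hre : ∀ s : ℂ, c + j < s.re → c < (s + (-(j : ℂ))).re := by
    intro s hs
    simp only [add_re, neg_re, intCast_re]
    linarith
  refine ⟨fun s => g (s + (-(j : ℂ))), fun s hs => ?_, fun s hs h0 => ?_, C + j, fun s hs => ?_⟩
  · exact (g1 (s + (-(j : ℂ))) (hre s hs)).comp_analyticAt (f := g) (g := fun s => s + (-(j : ℂ)))
      (by fun_prop)
  · rw [meromorphicOrderAt_fun_comp_add_const_eq_meromorphicOrderAt] at h0
    have := g2 _ (hre s hs) h0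
    have h1 := (mem_add_int hE (s + (-(j : ℂ))).re j).2 this
    simpa using h1
  · rw [LF_shift, sub_eq_add_neg]
    apply g3
    simp only [add_re, neg_re, intCast_re]
    linarith

/-- Continuation to all half planes gives continuation to the plane. -/
theorem good_of_goodTo {t : Idx N → ℂ} {w : ℤ} (bt : Gr w t)
    (h : ∀ m : ℕ, ∃ c : ℝ, c ≤ -(m : ℝ) ∧ GoodTo E c t) : Good E t := by
  have h' : ∀ m : ℕ, GoodTo E (-(m : ℝ)) t := fun m => by
    obtain ⟨c, hc, hg⟩ := h m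
    exact hg.mono hc
  choose f f1 f2 C f3 using h'
  let U : ℕ → Set ℂ := fun m => {s : ℂ | -(m : ℝ) < s.re}
  have hU : ∀ m, IsOpen (U m) := fun m => isOpen_half _
  have hf : ∀ m, ∀ s ∈ U m, MeromorphicAt (f m) s := fun m s hs => f1 m s hs
  have hford : ∀ m, ∀ s ∈ U m, meromorphicOrderAt (f m) s ≠ 0 → s.re ∈ E := fun m s hs h0 =>
    f2 m s hs h0
  -- identity theorem
  have hident : ∀ m n, m ≤ n → ∀ s ∈ U m, f m =ᶠ[𝓝[≠] s] f n := by
    intro m n hmn s hs
    have hsub : U m ⊆ U n := by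
      intro z hz
      simp only [U, Set.mem_ofPred_eq] at hz ⊢
      have : (m : ℝ) ≤ n := by exact_mod_cast hmn
      linarith
    have hm : MeromorphicOn (f m - f n) (U m) := fun z hz =>
      (hf m z hz).sub (hf n z (hsub hz))
    have hconv : Convex ℝ (U m) := convex_halfSpace_re_gt _
    have hconn : IsPreconnected (U m) := hconv.isPreconnected
    by_contra hne
    have h1 : meromorphicOrderAt (f m - f n) s ≠ ⊤ := by
      intro htop
      apply hne
      rw [meromorphicOrderAt_eq_top_iff] at htop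
      filter_upwards [htop] with z hz
      exact sub_eq_zero.1 hz
    -- a point far to the right
    obtain ⟨R, hR⟩ : ∃ R : ℝ, max (C m) (C n) < R ∧ -(m : ℝ) < R := by
      obtain ⟨R, hR⟩ := exists_gt (max (max (C m) (C n)) (-(m : ℝ)))
      exact ⟨R, (max_lt_iff.1 hR).1, (max_lt_iff.1 hR).2⟩
    have hRU : ((R : ℝ) : ℂ) ∈ U m := by
      simp only [U, Set.mem_ofPred_eq, ofReal_re]
      exact hR.2
    have h2 := hm.meromorphicOrderAt_ne_top_of_isPreconnected hconn hs hRU h1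
    apply h2
    rw [meromorphicOrderAt_eq_top_iff]
    have hO : IsOpen {z : ℂ | max (C m) (C n) < z.re} := isOpen_half _
    have hmem : ((R : ℝ) : ℂ) ∈ {z : ℂ | max (C m) (C n) < z.re} := by
      simp only [Set.mem_ofPred_eq, ofReal_re]
      exact hR.1
    filter_upwards [nhdsWithin_le_nhds (hO.mem_nhds hmem)] with z hz
    have hz' := max_lt_iff.1 (show _ < _ from hz)
    rw [Pi.sub_apply, f3 m z hz'.1, f3 n z hz'.2, sub_self]
  -- the index of a half plane which contains `s`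
  let M : ℂ → ℕ := fun s => ⌈-s.re⌉₊ + 1
  have hM : ∀ s, s ∈ U (M s) := by
    intro s
    have := Nat.le_ceil (-s.re)
    simp only [U, M, Set.mem_ofPred_eq]
    push_cast
    linarith
  have hident' : ∀ m n, ∀ s ∈ U m, s ∈ U n → f m =ᶠ[𝓝[≠] s] f n := by
    intro m n s hm hn
    rcases le_total m n with h | h
    · exact hident m n h s hm
    · exact (hident n m h s hn).symm
  let G : ℂ → ℂ := fun s => limUnder (𝓝[≠] s) (f (M s))
  -- near every point `G` is one of the `f m`, off the point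
  have hG : ∀ s₀ : ℂ, G =ᶠ[𝓝[≠] s₀] f (M s₀) := by
    intro s₀
    have h1 : ∀ᶠ z in 𝓝[≠] s₀, AnalyticAt ℂ (f (M s₀)) z :=
      (hf (M s₀) s₀ (hM s₀)).eventually_analyticAt
    have h2 : ∀ᶠ z in 𝓝[≠] s₀, z ∈ U (M s₀) :=
      nhdsWithin_le_nhds ((hU (M s₀)).mem_nhds (hM s₀))
    filter_upwards [h1, h2] with z hz1 hz2
    have h3 : f (M z) =ᶠ[𝓝[≠] z] f (M s₀) := hident' _ _ z (hM z) hz2
    have h4 : Tendsto (f (M s₀)) (𝓝[≠] z) (𝓝 (f (M s₀) z)) :=
      hz1.continuousAt.tendsto.mono_left nhdsWithin_le_nhds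
    exact (h4.congr' h3.symm).limUnder_eq
  refine ⟨G, fun s => ?_, fun s hs => ?_, max (C 0) (max 0 (1 + (w : ℝ) / 2)), fun s hs => ?_⟩
  · exact (hf (M s) s (hM s)).congr (hG s).symm
  · rw [meromorphicOrderAt_congr (hG s)] at hs
    exact hford _ s (hM s) hs
  · rw [max_lt_iff, max_lt_iff] at hs
    have h0 : s ∈ U 0 := by
      simp only [U, Set.mem_ofPred_eq, Nat.cast_zero, neg_zero]
      exact hs.2.1
    have h3 : f (M s) =ᶠ[𝓝[≠] s] f 0 := hident' _ _ s (hM s) h0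
    have h1 : f 0 =ᶠ[𝓝[≠] s] LF t := by
      filter_upwards [nhdsWithin_le_nhds ((isOpen_half (C 0)).mem_nhds hs.1)] with z hz
      exact f3 0 z hz
    have h4 : Tendsto (LF t) (𝓝[≠] s) (𝓝 (LF t s)) :=
      (bt.analytic hs.2.2).continuousAt.tendsto.mono_left nhdsWithin_le_nhds
    exact (h4.congr' (h3.trans h1).symm).limUnder_eq

end Pool.Agent.H41.HWS
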