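import Pool.Agent.H41.HWS.Count
import Pool.Agent.H41.HWS.Digit

/-!
The number of points of `X_m`.
-/

namespace Pool.Agent.H41.HWS

open Finset Pool.Agent.H73.Zeta Pool.Agent.H32.HW

/-- The first variables. -/
abbrev IX (m : ℕ) : Type := (Fin m × Fin m) ⊕ (Σ l : Fin m, Fin (m * (m + l)) × Fin m)

/-- The values of the other variables. -/
abbrev WX (m : ℕ) (K : Type) : Type :=
  (l : Fin m) → (Fin m → K) × (Fin m → K) × (Fin (m * (m + l)) → K)

/-- The values of the variables. -/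
def splitVar (m : ℕ) (K : Type) : (Var m → K) ≃ (IX m → K) × WX m K where
  toFun w := (Sum.elim (fun p => w (Var.x p.1 p.2)) (fun p => w (Var.u p.1 p.2.1 p.2.2)),
    fun l => (fun j => w (Var.y l j), fun k => w (Var.z l k), fun n => w (Var.v l n)))
  invFun z := fun
    | Var.x l i => z.1 (Sum.inl (l, i))
    | Var.y l j => (z.2 l).1 j
    | Var.z l k => (z.2 l).2.1 k
    | Var.u l n j => z.1 (Sum.inr ⟨l, n, j⟩)
    | Var.v l n => (z.2 l).2.2 n
  left_inv w := by
    funext t
    cases t <;> rfl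
  right_inv z := by
    refine Prod.ext (funext fun t => ?_) (funext fun l => rfl)
    rcases t with ⟨l, i⟩ | ⟨l, n, j⟩ <;> rfl

/-- The variables as a sum of types. -/
def varEquiv (m : ℕ) : Var m ≃ (Fin m × Fin m) ⊕ (Fin m × Fin m) ⊕ (Fin m × Fin m) ⊕
    (Σ l : Fin m, Fin (m * (m + l)) × Fin m) ⊕ (Σ l : Fin m, Fin (m * (m + l))) where
  toFun
    | Var.x l i => Sum.inl (l, i)
    | Var.y l j => Sum.inr (Sum.inl (l, j))
    | Var.z l k => Sum.inr (Sum.inr (Sum.inl (l, k)))
    | Var.u l n j => Sum.inr (Sum.inr (Sum.inr (Sum.inl ⟨l, n, j⟩)))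
    | Var.v l n => Sum.inr (Sum.inr (Sum.inr (Sum.inr ⟨l, n⟩)))
  invFun
    | Sum.inl p => Var.x p.1 p.2
    | Sum.inr (Sum.inl p) => Var.y p.1 p.2
    | Sum.inr (Sum.inr (Sum.inl p)) => Var.z p.1 p.2
    | Sum.inr (Sum.inr (Sum.inr (Sum.inl p))) => Var.u p.1 p.2.1 p.2.2
    | Sum.inr (Sum.inr (Sum.inr (Sum.inr p))) => Var.v p.1 p.2
  left_inv t := by cases t <;> rfl
  right_inv t := by rcases t with p | p | p | p | p <;> rfl

instance finite_Var (m : ℕ) : Finite (Var m) := Finite.of_equiv _ (varEquiv m).symm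

theorem dimX_eq (m : ℕ) : (Nat.card (Var m) : ℝ) = dimX m + 1 := by
  rw [Nat.card_congr (varEquiv m)]
  simp only [Nat.card_eq_fintype_card, Fintype.card_sum, Fintype.card_prod, Fintype.card_fin,
    Fintype.card_sigma]
  have h1 : ∑ l : Fin m, m * (m + (l : ℕ)) = ∑ l ∈ range m, m * (m + l) :=
    (Finset.sum_range (fun l => m * (m + l))).symm
  have h2 : ∑ l : Fin m, m * (m + (l : ℕ)) * m = (∑ l ∈ range m, m * (m + l)) * m := by
    rw [← Finset.sum_mul, h1]
  have h3 : ∀ k : ℕ, (2 : ℝ) * ∑ l ∈ range k, ((m : ℝ) * (m + l)) =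
      m * (2 * m * k + k * (k - 1)) := by
    intro k
    induction k with
    | zero => simp
    | succ k ih =>
      rw [Finset.sum_range_succ, mul_add, ih]
      push_cast
      ring
  have h4 := h3 m
  rw [h1, h2]
  unfold dimX
  push_cast
  linear_combination ((m : ℝ) + 1) / 2 * h4

section field

variable {K : Type} [Field K] [Finite K]

/-- The coefficients of the first variables. -/
def hX (K : Type) [Field K] (m : ℕ) : IX m → WX m K → K
  | Sum.inl p, w => ∑ j : Fin m, ∑ k : Fin m,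
      (coef p.1 p.2 j k : K) * (w p.1).1 j * (w p.1).2.1 k
  | Sum.inr p, w => (w p.1).1 p.2.2 * (w p.1).2.2 p.2.1

omit [Finite K] in
theorem aeval_eqn (m : ℕ) (w : Var m → K) :
    MvPolynomial.aeval w (eqn m) =
      ∑ i, ((splitVar m K) w).1 i * hX K m i ((splitVar m K) w).2 - 1 := by
  unfold eqn
  rw [map_sub, map_one, Fintype.sum_sum_type]
  congr 1
  simp only [map_sum, map_add, map_mul, MvPolynomial.aeval_X]
  rw [Finset.sum_add_distrib]
  congr 1
  · rw [Fintype.sum_prod_type]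
    refine Finset.sum_congr rfl fun l _ => Finset.sum_congr rfl fun i _ => ?_
    show _ = w (Var.x l i) * ∑ j : Fin m, ∑ k : Fin m,
      (coef l i j k : K) * w (Var.y l j) * w (Var.z l k)
    rw [Finset.mul_sum]
    refine Finset.sum_congr rfl fun j _ => ?_
    rw [Finset.mul_sum]
    refine Finset.sum_congr rfl fun k _ => ?_
    simp
    ring
  · rw [Fintype.sum_sigma]
    refine Finset.sum_congr rfl fun l _ => ?_
    rw [Fintype.sum_prod_type]
    refine Finset.sum_congr rfl fun n _ => Finset.sum_congr rfl fun j _ => ?_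
    show _ = w (Var.u l n j) * (w (Var.y l j) * w (Var.v l n))
    ring

omit [Field K] [Finite K] in
theorem card_WX (m : ℕ) : (Nat.card (WX m K) : ℤ) = ∏ l : Fin m,
      (Nat.card K : ℤ) ^ (2 * m + m * (m + l)) := by
  rw [Nat.card_pi]
  push_cast
  refine Finset.prod_congr rfl fun l _ => ?_
  rw [Nat.card_prod, Nat.card_prod]
  push_cast
  rw [card_fun, card_fun, Fintype.card_fin, Fintype.card_fin]
  ring

omit [Field K] [Finite K] in
theorem card_Var (m : ℕ) : (Nat.card K : ℤ) ^ Nat.card (Var m) =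
    (Nat.card K : ℤ) ^ Fintype.card (IX m) * ∏ l : Fin m,
      (Nat.card K : ℤ) ^ (2 * m + m * (m + l)) := by
  have h1 := Nat.card_congr (splitVar m K)
  have h2 := congrArg (Nat.cast : ℕ → ℤ) h1
  have h3 : (Nat.card (Var m → K) : ℤ) = (Nat.card K : ℤ) ^ Nat.card (Var m) := by
    rw [Nat.card_fun]
    push_cast
    rfl
  rw [h3, Nat.card_prod] at h2
  push_cast at h2
  rw [h2, card_WX, card_fun]

/-- The number of points of `X_m`. -/
theorem card_X (m : ℕ) :
    (Nat.card K : ℤ) * cnt (fun w : Var m → K => MvPolynomial.aeval w (eqn m) = 0) =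
      (Nat.card K : ℤ) ^ Nat.card (Var m) - (Nat.card K : ℤ) ^ Fintype.card (IX m) *
        ∏ l : Fin m, ((Nat.card K : ℤ) ^ (m + m * (m + l)) + Mf K (coef l) m m m -
          (Nat.card K : ℤ) ^ m) := by
  have h1 : cnt (fun w : Var m → K => MvPolynomial.aeval w (eqn m) = 0) =
      cnt (fun z : (IX m → K) × WX m K => ∑ i, z.1 i * hX K m i z.2 = 1) := by
    rw [← cnt_equiv (splitVar m K)]
    refine cnt_congr fun w => ?_
    rw [aeval_eqn, sub_eq_zero]
  have h2 : cnt (fun w : WX m K => ∀ i, hX K m i w = 0) =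
      ∏ l : Fin m, ((Nat.card K : ℤ) ^ (m + m * (m + l)) + Mf K (coef l) m m m -
          (Nat.card K : ℤ) ^ m) := by
    have h3 : ∀ w : WX m K, (∀ i, hX K m i w = 0) ↔ ∀ l : Fin m,
        ((∀ i : Fin m, ∑ j : Fin m, ∑ k : Fin m,
          (coef l i j k : K) * (w l).1 j * (w l).2.1 k = 0) ∧
          ∀ (r : Fin (m * (m + l))) (j : Fin m), (w l).1 j * (w l).2.2 r = 0) := by
      intro w
      constructor
      · intro h l
        exact ⟨fun i => h (Sum.inl (l, i)), fun r j => h (Sum.inr ⟨l, r, j⟩)⟩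
      · rintro h (⟨l, i⟩ | ⟨l, r, j⟩)
        · exact (h l).1 i
        · exact (h l).2 r j
    rw [cnt_congr h3, cnt_pi (fun (l : Fin m)
      (u : (Fin m → K) × (Fin m → K) × (Fin (m * (m + l)) → K)) =>
      (∀ i : Fin m, ∑ j : Fin m, ∑ k : Fin m, (coef l i j k : K) * u.1 j * u.2.1 k = 0) ∧
          ∀ (r : Fin (m * (m + l))) (j : Fin m), u.1 j * u.2.2 r = 0)]
    exact Finset.prod_congr rfl fun l _ => cnt_factor (coef l)
  rw [h1, cnt_mult_one, h2, card_WX, mul_sub, ← card_Var]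

end field

end Pool.Agent.H41.HWS
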